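import Mathlib
set_option autoImplicit false
open MvPolynomial

namespace NestConn.MSS

variable {n : Type*} [Fintype n] [DecidableEq n]

/-- value at a real matrix of a polynomial in the matrix entries -/
noncomputable def evR (G : MvPolynomial (n × n) ℝ) (M : Matrix n n ℝ) : ℝ :=
  MvPolynomial.eval (fun ij => M ij.1 ij.2) G

/-- value at a complex matrix -/
noncomputable def evC (G : MvPolynomial (n × n) ℝ) (M : Matrix n n ℂ) : ℂ :=
  MvPolynomial.aeval (fun ij => M ij.1 ij.2) G

/-- directional derivative in direction `A` -/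
noncomputable def Dd (A : Matrix n n ℝ) (G : MvPolynomial (n × n) ℝ) : MvPolynomial (n × n) ℝ :=
  ∑ ij : n × n, C (A ij.1 ij.2) * pderiv ij G

/-- the generic determinant -/
noncomputable def detP (n : Type*) [Fintype n] [DecidableEq n] : MvPolynomial (n × n) ℝ :=
  (Matrix.of fun i j => (X (i, j) : MvPolynomial (n × n) ℝ)).det

/-- `∏ (1 - D_A)` applied to the determinant -/
noncomputable def FF : List (Matrix n n ℝ) → MvPolynomial (n × n) ℝ
  | [] => detP n
  | A :: l => FF l - Dd A (FF l)

/-- restriction to the line `M + tA` (real) -/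
noncomputable def linR (G : MvPolynomial (n × n) ℝ) (M A : Matrix n n ℝ) : Polynomial ℝ :=
  MvPolynomial.aeval (fun ij => Polynomial.C (M ij.1 ij.2) + Polynomial.X * Polynomial.C (A ij.1 ij.2)) G

/-- restriction to the line `M + tA` (complex base point, real direction) -/
noncomputable def linC (G : MvPolynomial (n × n) ℝ) (M : Matrix n n ℂ) (A : Matrix n n ℝ) :
    Polynomial ℂ :=
  MvPolynomial.aeval (fun ij => Polynomial.C (M ij.1 ij.2) +
    Polynomial.X * Polynomial.C ((A ij.1 ij.2 : ℝ) : ℂ)) G

/-- the point `H + iK` -/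
noncomputable def cplx (H K : Matrix n n ℝ) : Matrix n n ℂ :=
  H.map (fun x => (x : ℂ)) + Complex.I • K.map (fun x => (x : ℂ))

/-- stability: no zeros in the Siegel upper half space -/
def Stab (G : MvPolynomial (n × n) ℝ) : Prop :=
  ∀ H K : Matrix n n ℝ, H.IsSymm → K.PosDef → evC G (cplx H K) ≠ 0

/-- positivity above `M` -/
def Above (G : MvPolynomial (n × n) ℝ) (M : Matrix n n ℝ) : Prop :=
  ∀ N : Matrix n n ℝ, N.PosSemidef → 0 < evR G (M + N)

end NestConn.MSS
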