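import Mathlib
import Pool.Agent.NestConn.MSS.Formal
set_option autoImplicit false
open MvPolynomial

namespace NestConn.MSS

variable {n : Type*} [Fintype n] [DecidableEq n]



theorem evR_Dd_eq (G : MvPolynomial (n × n) ℝ) (M A : Matrix n n ℝ) :
    evR (Dd A G) M = (linR G M A).derivative.eval 0 := by
  rw [derivative_linR, eval_linR]; simp

/-- Jacobi at a scalar matrix -/
theorem evR_Dd_detP_scalar (B : Matrix n n ℝ) (t : ℝ) (ht : t ≠ 0) :
    evR (Dd B (detP n)) (t • (1 : Matrix n n ℝ)) = B.trace / t * evR (detP n) (t • (1 : Matrix n n ℝ)) := by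
  classical
  set Q : Polynomial ℝ := (Matrix.det (1 + (Polynomial.X : Polynomial ℝ) • B.map Polynomial.C)).divX.divX with hQ
  have hp : linR (detP n) (t • (1 : Matrix n n ℝ)) B
      = Polynomial.C (t ^ Fintype.card n) * (1 + Polynomial.C (B.trace / t) * Polynomial.X +
        (Q.comp (Polynomial.C t⁻¹ * Polynomial.X)) * (Polynomial.C t⁻¹ * Polynomial.X) ^ 2) := by
    apply Polynomial.funext
    intro s
    rw [eval_linR, evR_detP]
    have h1 : t • (1 : Matrix n n ℝ) + s • B = t • (1 + (t⁻¹ * s) • B) := by
      rw [smul_add, smul_smul, ← mul_assoc, mul_inv_cancel₀ ht, one_mul]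
    rw [h1, Matrix.det_smul, Matrix.det_one_add_smul, ← hQ]
    simp only [Polynomial.eval_mul, Polynomial.eval_add, Polynomial.eval_C, Polynomial.eval_one,
      Polynomial.eval_X, Polynomial.eval_pow, Polynomial.eval_comp]
    ring
  rw [evR_Dd_eq, hp, evR_detP, Matrix.det_smul, Matrix.det_one]
  simp only [Polynomial.derivative_mul, Polynomial.derivative_add, Polynomial.derivative_C,
    Polynomial.derivative_one, Polynomial.derivative_X, Polynomial.derivative_pow,
    Polynomial.eval_mul, Polynomial.eval_add, Polynomial.eval_C, Polynomial.eval_one,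
    Polynomial.eval_X, Polynomial.eval_pow, Polynomial.eval_zero]
  simp
  ring

/-- `det (N + s u vᵀ)` is affine in `s` -/
theorem det_add_smul_vecMulVec (N : Matrix n n ℝ) (u v : n → ℝ) :
    ∃ c : ℝ, ∀ s : ℝ, (N + s • Matrix.vecMulVec u v).det = N.det + s * c := by
  classical
  let W : Matrix (Unit ⊕ n) (Unit ⊕ n) ℝ :=
    Matrix.fromBlocks 1 0 (Matrix.replicateCol Unit u) N
  have hW : W.det = N.det := by
    simp only [W]
    rw [Matrix.det_fromBlocks_one₁₁]; simp
  let r0 : Unit ⊕ n → ℝ := Sum.elim 1 0
  let r1 : Unit ⊕ n → ℝ := Sum.elim 0 (-v)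
  refine ⟨(W.updateRow (Sum.inl ()) r1).det, fun s => ?_⟩
  have h0 : W.updateRow (Sum.inl ()) r0 = W := by
    ext i j
    rcases i with i | i
    · rcases j with j | j
      · simp [W, r0, Matrix.updateRow_apply]
      · simp [W, r0, Matrix.updateRow_apply]
    · simp [W, Matrix.updateRow_apply]
  have h1 : W.updateRow (Sum.inl ()) (r0 + s • r1)
      = Matrix.fromBlocks 1 (Matrix.replicateRow Unit (-(s • v))) (Matrix.replicateCol Unit u) N := by
    ext i j
    rcases i with i | i
    · rcases j with j | j
      · simp [W, r0, r1, Matrix.updateRow_apply]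
      · simp [W, r0, r1, Matrix.updateRow_apply]
    · rcases j with j | j
      · simp [W, Matrix.updateRow_apply]
      · simp [W, Matrix.updateRow_apply]
  have h2 : (N + s • Matrix.vecMulVec u v).det
      = (Matrix.fromBlocks 1 (Matrix.replicateRow Unit (-(s • v))) (Matrix.replicateCol Unit u) N).det := by
    rw [Matrix.det_fromBlocks_one₁₁]
    congr 1
    ext i j
    simp [Matrix.vecMulVec_apply, Matrix.mul_apply]
    ring
  rw [h2, ← h1, Matrix.det_updateRow_add, Matrix.det_updateRow_smul, h0, hW]

/-- rank one updates -/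
theorem evR_FF_rankOne (l : List (n → ℝ)) (M : Matrix n n ℝ) :
    evR (FF (l.map fun v => Matrix.vecMulVec v v)) M
      = (M - (l.map fun v => Matrix.vecMulVec v v).sum).det := by
  induction l generalizing M with
  | nil => simp [FF, evR_detP]
  | cons v l ih =>
    simp only [List.map_cons, FF, List.sum_cons]
    rw [evR_sub, evR_Dd_eq, ih]
    set S : Matrix n n ℝ := (l.map fun v => Matrix.vecMulVec v v).sum with hS
    obtain ⟨c, hc⟩ := det_add_smul_vecMulVec (M - S) v v
    have hp : linR (FF (l.map fun v => Matrix.vecMulVec v v)) M (Matrix.vecMulVec v v)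
        = Polynomial.C (M - S).det + Polynomial.C c * Polynomial.X := by
      apply Polynomial.funext
      intro s
      rw [eval_linR, ih]
      have h1 : M + s • Matrix.vecMulVec v v - S = M - S + s • Matrix.vecMulVec v v := by abel
      rw [h1, hc]
      simp only [Polynomial.eval_mul, Polynomial.eval_add, Polynomial.eval_C, Polynomial.eval_X]
      ring
    rw [hp]
    have h2 := hc (-1)
    have h3 : M - (Matrix.vecMulVec v v + S) = M - S + (-1 : ℝ) • Matrix.vecMulVec v v := by
      rw [neg_one_smul]; abel
    rw [h3, h2]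
    simp
    ring


end NestConn.MSS
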