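import Mathlib
import Pool.Agent.NestConn.MSS.Defs
set_option autoImplicit false
open MvPolynomial

namespace NestConn.MSS



theorem pick_sum (s : Multiset ℂ) (h : ∀ z ∈ s, z.im < 0) :
    (s.map (fun z => 1 / (0 - z))).sum.im ≤ 0 ∧
      (s ≠ 0 → (s.map (fun z => 1 / (0 - z))).sum.im < 0) := by
  induction s using Multiset.induction_on with
  | empty => simp
  | cons a s ih =>
    have h1 := (ih (fun z hz => h z (Multiset.mem_cons_of_mem hz))).1
    have h2 := h a (Multiset.mem_cons_self a s)
    have ha : a ≠ 0 := by
      rintro rfl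
      simp at h2
    have h3 : (1 / (0 - a)).im < 0 := by
      rw [zero_sub, one_div, inv_neg, Complex.neg_im, Complex.inv_im]
      have : 0 < Complex.normSq a := Complex.normSq_pos.mpr ha
      have h4 : -a.im / Complex.normSq a > 0 := div_pos (by linarith) this
      linarith
    rw [Multiset.map_cons, Multiset.sum_cons, Complex.add_im]
    constructor
    · linarith
    · intro _
      linarith

theorem pick_univ (a : Polynomial ℂ) (h : ∀ t : ℂ, 0 ≤ t.im → a.eval t ≠ 0) :
    ((a.derivative.eval 0) * (starRingEnd ℂ) (a.eval 0)).im ≤ 0 ∧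
      a.eval 0 - a.derivative.eval 0 ≠ 0 := by
  have h0 : a.eval 0 ≠ 0 := h 0 (by simp)
  have hane : a ≠ 0 := by
    rintro rfl
    simp at h0
  have hr := (IsAlgClosed.splits a).eval_derivative_div_eval_of_ne_zero h0
  have hroots : ∀ z ∈ a.roots, z.im < 0 := by
    intro z hz
    by_contra hge
    push Not at hge
    exact h z hge (Polynomial.isRoot_of_mem_roots hz)
  obtain ⟨h1, h2⟩ := pick_sum a.roots hroots
  rw [← hr] at h1 h2
  set r := a.derivative.eval 0 / a.eval 0 with hrd
  have hd : a.derivative.eval 0 = r * a.eval 0 := by rw [hrd, div_mul_cancel₀ _ h0]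
  constructor
  · rw [hd, mul_assoc, Complex.mul_conj, Complex.im_mul_ofReal]
    exact mul_nonpos_of_nonpos_of_nonneg h1 (Complex.normSq_nonneg _)
  · intro heq
    have h3 : a.derivative.eval 0 = a.eval 0 := (sub_eq_zero.mp heq).symm
    have hr1 : r = 1 := by rw [hrd, h3, div_self h0]
    by_cases hz : a.roots = 0
    · rw [hz] at hr
      rw [hr1] at hr
      simp at hr
    · have := h2 hz
      rw [hr1] at this
      simp at this


end NestConn.MSS
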