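import Mathlib
import Pool.Agent.NestConn.MSS.Formal
import Pool.Agent.NestConn.MSS.Pick
set_option autoImplicit false
open MvPolynomial

namespace NestConn.MSS

variable {n : Type*} [Fintype n] [DecidableEq n]



theorem Stab_symm {A : Matrix n n ℝ} (hA : A.PosSemidef) : A.IsSymm := by
  have h := hA.isHermitian
  rw [Matrix.IsHermitian, Matrix.conjTranspose_eq_transpose_of_trivial] at h
  exact h

theorem Stab_cplx (H K A : Matrix n n ℝ) (t : ℂ) :
    cplx H K + t • A.map (fun x => (x : ℂ)) = cplx (H + t.re • A) (K + t.im • A) := by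
  ext i j
  simp only [cplx, Matrix.add_apply, Matrix.smul_apply, Matrix.map_apply, smul_eq_mul,
    Complex.ofReal_add, Complex.ofReal_mul]
  have h := Complex.re_add_im t
  linear_combination (-(A i j : ℂ)) * h

theorem Stab_detP : Stab (detP n) := by
  intro H K hH hK
  rw [evC_detP]
  intro h0
  obtain ⟨v, hv, hv0⟩ := Matrix.exists_mulVec_eq_zero_iff.2 h0
  set a : n → ℝ := fun i => (v i).re with ha
  set b : n → ℝ := fun i => (v i).im with hb
  have h1 : ∀ i, ∑ j, (((H i j : ℝ) : ℂ) + Complex.I * ((K i j : ℝ) : ℂ)) * v j = 0 := by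
    intro i
    have := congrFun hv0 i
    simp only [Matrix.mulVec, dotProduct, cplx, Matrix.add_apply, Matrix.smul_apply,
      Matrix.map_apply, smul_eq_mul, Pi.zero_apply] at this
    exact this
  have hre : H.mulVec a = K.mulVec b := by
    funext i
    have h2 := congrArg Complex.re (h1 i)
    rw [Complex.re_sum, Complex.zero_re] at h2
    have h3 : ∀ j, ((((H i j : ℝ) : ℂ) + Complex.I * ((K i j : ℝ) : ℂ)) * v j).re =
        H i j * a j - K i j * b j := by
      intro j
      simp [ha, hb]
    rw [Finset.sum_congr rfl (fun j _ => h3 j), Finset.sum_sub_distrib, sub_eq_zero] at h2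
    exact h2
  have him : H.mulVec b = -K.mulVec a := by
    funext i
    have h2 := congrArg Complex.im (h1 i)
    rw [Complex.im_sum, Complex.zero_im] at h2
    have h3 : ∀ j, ((((H i j : ℝ) : ℂ) + Complex.I * ((K i j : ℝ) : ℂ)) * v j).im =
        H i j * b j + K i j * a j := by
      intro j
      simp [ha, hb]
    rw [Finset.sum_congr rfl (fun j _ => h3 j), Finset.sum_add_distrib] at h2
    show ∑ j, H i j * b j = -∑ j, K i j * a j
    linarith
  have hsym : b ⬝ᵥ H.mulVec a = a ⬝ᵥ H.mulVec b := by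
    rw [Matrix.dotProduct_mulVec, ← Matrix.mulVec_transpose, hH.eq, dotProduct_comm]
  rw [hre, him, dotProduct_neg] at hsym
  have hKa : 0 ≤ a ⬝ᵥ K.mulVec a := by
    have := hK.posSemidef.dotProduct_mulVec_nonneg a
    simpa using this
  have hKb : 0 ≤ b ⬝ᵥ K.mulVec b := by
    have := hK.posSemidef.dotProduct_mulVec_nonneg b
    simpa using this
  have ha0 : a = 0 := by
    by_contra hne
    have := hK.dotProduct_mulVec_pos hne
    have h4 : 0 < a ⬝ᵥ K.mulVec a := by simpa using this
    linarith
  have hb0 : b = 0 := by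
    by_contra hne
    have := hK.dotProduct_mulVec_pos hne
    have h4 : 0 < b ⬝ᵥ K.mulVec b := by simpa using this
    linarith
  apply hv
  funext i
  apply Complex.ext
  · exact congrFun ha0 i
  · exact congrFun hb0 i

theorem Stab_line (G : MvPolynomial (n × n) ℝ) (hG : Stab G) (H K A : Matrix n n ℝ)
    (hH : H.IsSymm) (hK : K.PosDef) (hA : A.PosSemidef) (t : ℂ) (ht : 0 ≤ t.im) :
    (linC G (cplx H K) A).eval t ≠ 0 := by
  rw [eval_linC, Stab_cplx]
  apply hG
  · rw [Matrix.IsSymm, Matrix.transpose_add, Matrix.transpose_smul, hH.eq, (Stab_symm hA).eq]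
  · exact hK.add_posSemidef (hA.smul ht)

theorem Stab_eval0 (G : MvPolynomial (n × n) ℝ) (P : Matrix n n ℂ) (A : Matrix n n ℝ) :
    (linC G P A).eval 0 = evC G P := by
  rw [eval_linC, zero_smul, add_zero]

theorem Stab_step (G : MvPolynomial (n × n) ℝ) (hG : Stab G) (A : Matrix n n ℝ) (hA : A.PosSemidef) :
    Stab (G - Dd A G) := by
  intro H K hH hK
  have h := (pick_univ (linC G (cplx H K) A)
    (fun t ht => Stab_line G hG H K A hH hK hA t ht)).2
  rw [derivative_linC, Stab_eval0, Stab_eval0] at h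
  rw [evC_sub]
  exact h

theorem Stab_pick (G : MvPolynomial (n × n) ℝ) (hG : Stab G) (M A B : Matrix n n ℝ)
    (hM : M.IsSymm) (hA : A.PosSemidef) (hB : B.PosSemidef) (t : ℂ) (ht : 0 < t.im) :
    ((Polynomial.aeval t (linR (Dd B G) M A)) *
      (starRingEnd ℂ) (Polynomial.aeval t (linR G M A))).im ≤ 0 := by
  rw [aeval_linR, aeval_linR]
  set P0 : Matrix n n ℂ := M.map (fun x => (x : ℂ)) + t • A.map (fun x => (x : ℂ)) with hP0
  set F : ℝ → ℝ := fun η => (((linC (Dd B G) P0 1).eval (Complex.I * (η : ℂ))) *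
    (starRingEnd ℂ) ((linC G P0 1).eval (Complex.I * (η : ℂ)))).im with hF
  have hFc : Continuous F := by
    have h1 : Continuous (fun η : ℝ => Complex.I * (η : ℂ)) := by fun_prop
    have h2 : Continuous (fun η : ℝ => (linC (Dd B G) P0 1).eval (Complex.I * (η : ℂ))) :=
      (Polynomial.continuous _).comp h1
    have h3 : Continuous (fun η : ℝ => (linC G P0 1).eval (Complex.I * (η : ℂ))) :=
      (Polynomial.continuous _).comp h1
    exact Complex.continuous_im.comp (h2.mul (Complex.continuous_conj.comp h3))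
  have hF0 : F 0 = (evC (Dd B G) P0 * (starRingEnd ℂ) (evC G P0)).im := by
    rw [hF]
    simp only [Complex.ofReal_zero, mul_zero, Stab_eval0]
  rw [← hF0]
  have hPη : ∀ η : ℝ, P0 + (Complex.I * (η : ℂ)) • (1 : Matrix n n ℝ).map (fun x => (x : ℂ)) =
      cplx (M + t.re • A) (t.im • A + η • (1 : Matrix n n ℝ)) := by
    intro η
    ext i j
    simp only [hP0, cplx, Matrix.add_apply, Matrix.smul_apply, Matrix.map_apply, smul_eq_mul,
      Complex.ofReal_add, Complex.ofReal_mul]
    have h := Complex.re_add_im t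
    linear_combination (-(A i j : ℂ)) * h
  have hpos : ∀ η : ℝ, 0 < η → F η ≤ 0 := by
    intro η hη
    rw [hF]
    simp only
    rw [eval_linC, eval_linC, hPη]
    have hK : (t.im • A + η • (1 : Matrix n n ℝ)).PosDef :=
      Matrix.PosDef.posSemidef_add (hA.smul ht.le) (Matrix.PosDef.one.smul hη)
    have hH : (M + t.re • A).IsSymm := by
      rw [Matrix.IsSymm, Matrix.transpose_add, Matrix.transpose_smul, hM.eq, (Stab_symm hA).eq]
    have h := (pick_univ (linC G (cplx (M + t.re • A) (t.im • A + η • (1 : Matrix n n ℝ))) B)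
      (fun s hs => Stab_line G hG _ _ B hH hK hB s hs)).1
    rw [derivative_linC, Stab_eval0, Stab_eval0] at h
    exact h
  refine le_of_tendsto (f := F) (b := 0) (x := nhdsWithin 0 (Set.Ioi 0)) ?_ ?_
  · exact (hFc.tendsto 0).mono_left nhdsWithin_le_nhds
  · filter_upwards [self_mem_nhdsWithin] with η hη
    exact hpos η hη


theorem Stab_FF (l : List (Matrix n n ℝ)) (hl : ∀ A ∈ l, A.PosSemidef) : Stab (FF l) := by
  induction l with
  | nil => exact Stab_detP
  | cons A l ih =>
    exact Stab_step _ (ih fun B hB => hl B (List.mem_cons_of_mem _ hB)) A (hl A List.mem_cons_self)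

end NestConn.MSS
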