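import Mathlib
import Pool.Agent.NestConn.MSS.Stab
import Pool.Agent.NestConn.MSS.Det
import Pool.Agent.NestConn.MSS.Convex
set_option autoImplicit false
open MvPolynomial

namespace NestConn.MSS

variable {n : Type*} [Fintype n] [DecidableEq n]



/-- monotonicity and convexity of `Φ_B` along `A` -/
theorem Phi_mono (G : MvPolynomial (n × n) ℝ) (hG : Stab G) (M A B : Matrix n n ℝ)
    (hM : M.IsSymm) (hA : A.PosSemidef) (hB : B.PosSemidef) (hab : Above G M) :
    evR (Dd B G) (M + A) / evR G (M + A) ≤ evR (Dd B G) M / evR G M := by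
  obtain ⟨h1, h2⟩ := pick_convex (linR G M A) (linR (Dd B G) M A)
    (fun t ht => Stab_pick G hG M A B hM hA hB t ht)
    (fun t ht => by rw [eval_linR]; exact hab _ (hA.smul ht)) 1 zero_le_one
  simp only [eval_linR, one_smul, zero_smul, add_zero, one_mul] at h1 h2
  have h3 : ((linR (Dd B G) M A).derivative.eval 1 * evR G (M + A) -
      evR (Dd B G) (M + A) * (linR G M A).derivative.eval 1) / evR G (M + A) ^ 2 ≤ 0 :=
    div_nonpos_of_nonpos_of_nonneg h1 (sq_nonneg _)
  linarith

theorem barrier_step (G : MvPolynomial (n × n) ℝ) (hG : Stab G) (M A : Matrix n n ℝ)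
    (hM : M.IsSymm) (hA : A.PosSemidef) (hab : Above G M) (δ : ℝ) (hδ : 0 < δ)
    (hΦ : evR (Dd A G) M / evR G M ≤ 1 - 1 / δ) :
    Above (G - Dd A G) (M + δ • A) ∧
    ∀ B : Matrix n n ℝ, B.PosSemidef →
      evR (Dd B (G - Dd A G)) (M + δ • A) / evR (G - Dd A G) (M + δ • A) ≤
        evR (Dd B G) M / evR G M := by
  have hδA : (δ • A).PosSemidef := hA.smul hδ.le
  have hinv : 0 < 1 / δ := by positivity
  constructor
  · intro N hN
    have hs : (δ • A + N).PosSemidef := hδA.add hN
    have h1 : 0 < evR G (M + δ • A + N) := by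
      rw [add_assoc]; exact hab _ hs
    have h2 := Phi_mono G hG M (δ • A + N) A hM hs hA hab
    rw [← add_assoc] at h2
    rw [evR_sub]
    have h3 : evR (Dd A G) (M + δ • A + N) / evR G (M + δ • A + N) < 1 := by linarith
    rw [div_lt_one h1] at h3
    linarith
  · intro B hB
    have ha : 0 < evR G (M + δ • A) := hab _ hδA
    obtain ⟨h1, h2⟩ := pick_convex (linR G M A) (linR (Dd B G) M A)
      (fun t ht => Stab_pick G hG M A B hM hA hB t ht)
      (fun t ht => by rw [eval_linR]; exact hab _ (hA.smul ht)) δ hδ.le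
    have h3 := Phi_mono G hG M (δ • A) A hM hδA hA hab
    rw [derivative_linR, derivative_linR] at h1 h2
    simp only [eval_linR, zero_smul, add_zero] at h1 h2
    rw [Dd_sub, evR_sub, evR_sub, Dd_comm B A G]
    set a := evR G (M + δ • A) with haa
    set a' := evR (Dd A G) (M + δ • A) with ha'
    set b := evR (Dd B G) (M + δ • A) with hb
    set b' := evR (Dd A (Dd B G)) (M + δ • A) with hb'
    have hy : a' / a ≤ 1 - 1 / δ := h3.trans hΦ
    have hy2 : a' ≤ (1 - 1 / δ) * a := (div_le_iff₀ ha).1 hy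
    have hden : a / δ ≤ a - a' := by
      have : a / δ = 1 / δ * a := by ring
      rw [this]; linarith
    have hden0 : 0 < a - a' := lt_of_lt_of_le (by positivity) hden
    refine le_trans ?_ h2
    -- (b - b')/(a - a') ≤ b/a - δ (b' a - b a')/a²
    have e1 : (b - b') / (a - a') = b / a + (b * a' - b' * a) / (a * (a - a')) := by
      field_simp
      ring
    rw [e1]
    have h4 : 0 ≤ b * a' - b' * a := by linarith
    have h5 : (b * a' - b' * a) / (a * (a - a')) ≤ (b * a' - b' * a) / (a * (a / δ)) := by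
      apply div_le_div_of_nonneg_left h4 (by positivity)
      exact mul_le_mul_of_nonneg_left hden ha.le
    have e2 : (b * a' - b' * a) / (a * (a / δ)) = -(δ * ((b' * a - b * a') / a ^ 2)) := by
      field_simp
      ring
    rw [e2] at h5
    linarith

theorem barrier (l : List (Matrix n n ℝ)) (hl : ∀ A ∈ l, A.PosSemidef) (ε t δ : ℝ) (hε : 0 ≤ ε)
    (ht : 0 < t) (hδ : 0 < δ) (htr : ∀ A ∈ l, A.trace ≤ ε) (h : ε / t ≤ 1 - 1 / δ) :
    Above (FF l) (t • (1 : Matrix n n ℝ) + δ • l.sum) := by
  have hone : (t • (1 : Matrix n n ℝ)).PosDef := Matrix.PosDef.one.smul ht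
  have key : (t • (1 : Matrix n n ℝ) + δ • l.sum).IsSymm ∧
      Above (FF l) (t • (1 : Matrix n n ℝ) + δ • l.sum) ∧
      ∀ B : Matrix n n ℝ, B.PosSemidef →
        evR (Dd B (FF l)) (t • (1 : Matrix n n ℝ) + δ • l.sum) /
          evR (FF l) (t • (1 : Matrix n n ℝ) + δ • l.sum) ≤ B.trace / t := by
    induction l with
    | nil =>
      have e0 : (t • (1 : Matrix n n ℝ) + δ • (([] : List (Matrix n n ℝ)).sum)) =
          t • (1 : Matrix n n ℝ) := by simp
      rw [e0]
      have hpos : ∀ N : Matrix n n ℝ, N.PosSemidef → 0 < evR (FF ([] : List (Matrix n n ℝ)))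
          (t • (1 : Matrix n n ℝ) + N) := by
        intro N hN
        change 0 < evR (detP n) _
        rw [evR_detP]
        exact (hone.add_posSemidef hN).det_pos
      refine ⟨?_, hpos, ?_⟩
      · simp [Matrix.IsSymm]
      · intro B hB
        change evR (Dd B (detP n)) _ / evR (detP n) _ ≤ _
        rw [evR_Dd_detP_scalar B t ht.ne']
        have h0 : 0 < evR (detP n) (t • (1 : Matrix n n ℝ)) := by
          have := hpos 0 Matrix.PosSemidef.zero
          rwa [add_zero] at this
        rw [mul_div_assoc, div_self h0.ne', mul_one]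
    | cons A l ih =>
      obtain ⟨h1, h2, h3⟩ := ih (fun B hB => hl B (List.mem_cons_of_mem _ hB))
        (fun B hB => htr B (List.mem_cons_of_mem _ hB))
      have hA : A.PosSemidef := hl A List.mem_cons_self
      have hAs : A.IsSymm := by
        have := hA.isHermitian
        rwa [Matrix.IsHermitian, Matrix.conjTranspose_eq_transpose_of_trivial] at this
      have e1 : t • (1 : Matrix n n ℝ) + δ • (A :: l).sum =
          (t • (1 : Matrix n n ℝ) + δ • l.sum) + δ • A := by
        rw [List.sum_cons, smul_add]; abel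
      have e2 : FF (A :: l) = FF l - Dd A (FF l) := rfl
      rw [e1, e2]
      have hΦ : evR (Dd A (FF l)) (t • (1 : Matrix n n ℝ) + δ • l.sum) /
          evR (FF l) (t • (1 : Matrix n n ℝ) + δ • l.sum) ≤ 1 - 1 / δ := by
        refine (h3 A hA).trans (le_trans ?_ h)
        exact div_le_div_of_nonneg_right (htr A List.mem_cons_self) ht.le
      obtain ⟨h4, h5⟩ := barrier_step (FF l)
        (Stab_FF l (fun B hB => hl B (List.mem_cons_of_mem _ hB))) _ A h1 hA h2 δ hδ hΦ
      refine ⟨h1.add (hAs.smul δ), h4, fun B hB => (h5 B hB).trans (h3 B hB)⟩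
  exact key.2.1


end NestConn.MSS
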